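import Pool.Agent.H458.AG.Loc

/-! AG RED1: reduction of binary quadratic forms over `k[x]` of discriminant `4 f`. -/

set_option autoImplicit false
set_option linter.all false

open Polynomial

namespace Pool.Agent.H118.AG458

theorem odd_ne_sq {k : Type} [Field k] {g : ℕ} {f t : k[X]} (hd : f.natDegree = 2 * g + 1) :
    t ^ 2 ≠ f := by
  intro h
  have h1 := congrArg natDegree h
  rw [natDegree_pow, hd] at h1
  omega

theorem red_aux (k : Type) [Field k] (g : ℕ) (f : k[X]) (hd : f.natDegree = 2 * g + 1) (z : k[X]) :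
    ∀ (n : ℕ) (u t w c b : k[X]), u.natDegree = n → t ^ 2 - u * w = f →
      u * c ^ 2 + 2 * t * c * b + w * b ^ 2 = z →
      ∃ u t w c b : k[X], t ^ 2 - u * w = f ∧ u ≠ 0 ∧ u.natDegree ≤ g ∧ t.degree < u.degree ∧
        u * c ^ 2 + 2 * t * c * b + w * b ^ 2 = z := by
  intro n
  induction n using Nat.strong_induction_on with
  | _ n ih =>
  intro u t w c b hn hf hz
  have hu : u ≠ 0 := by
    intro h0
    rw [h0, zero_mul, sub_zero] at hf
    exact odd_ne_sq hd hf
  obtain ⟨q, hq⟩ : ∃ q, q = t / u := ⟨_, rfl⟩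
  obtain ⟨r, hr⟩ : ∃ r, r = t % u := ⟨_, rfl⟩
  have hqr : t = u * q + r := by
    rw [hq, hr]
    exact (EuclideanDomain.div_add_mod t u).symm
  have hdeg : r.degree < u.degree := by
    rw [hr]
    exact degree_mod_lt t hu
  obtain ⟨w', hw'⟩ : ∃ w', w' = w - 2 * q * t + q ^ 2 * u := ⟨_, rfl⟩
  have hf' : r ^ 2 - u * w' = f := by
    rw [← hf, hw', hqr]
    ring
  have hz' : u * (c + q * b) ^ 2 + 2 * r * (c + q * b) * b + w' * b ^ 2 = z := by
    rw [← hz, hw', hqr]
    ring
  by_cases hg : u.natDegree ≤ g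
  · exact ⟨u, r, w', c + q * b, b, hf', hu, hg, hdeg, hz'⟩
  · push Not at hg
    have hw0 : w' ≠ 0 := by
      intro h0
      rw [h0, mul_zero, sub_zero] at hf'
      exact odd_ne_sq hd hf'
    have hrn : r.natDegree < u.natDegree := by
      by_cases hr0 : r = 0
      · rw [hr0, natDegree_zero]
        omega
      · exact natDegree_lt_natDegree hr0 hdeg
    have hprod : u * w' = r ^ 2 - f := by
      rw [← hf']
      ring
    have h1 : (u * w').natDegree ≤ max (r ^ 2).natDegree f.natDegree := by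
      rw [hprod]
      exact natDegree_sub_le _ _
    rw [natDegree_mul hu hw0, natDegree_pow, hd] at h1
    have h2 : w'.natDegree < n := by
      rcases le_max_iff.1 h1 with h | h <;> omega
    refine ih _ h2 w' r u b (c + q * b) rfl ?_ ?_
    · rw [← hf']
      ring
    · rw [← hz']
      ring

theorem red1 : Pool.Agent.H458.AG.S_RED1 := by
  intro k _ g f u₀ t₀ w₀ _ hd hf c₀ b₀
  exact red_aux k g f hd _ _ u₀ t₀ w₀ c₀ b₀ rfl hf rfl

end Pool.Agent.H118.AG458
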